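import Pool.Agent.N936.TC.Main
import Pool.Agent.N91.TC.ENUM
import Pool.Agent.N519.TC.HOMEO
import Pool.Agent.N1.TC.TRANS
import Pool.Agent.N227.TC.CUTS
import Pool.Agent.N327.TC.MET
import Pool.Agent.N79.TC.CONN
import Pool.Agent.N935.TC.IND
import Pool.Agent.N383.TC.WCONN
import Pool.Agent.N952.TC.KCONN
import Pool.Agent.N28.TC.DISJ
import Pool.Agent.N680.TC.INT
import Pool.Agent.N278.TC.CPT
import Pool.Agent.N936.TC.Modl

set_option autoImplicit false

namespace Pool.Agent.Results.MP_cdfe0d_gt.DisjointSubcontinua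

open Set

/-- A continuum: a nonempty compact connected Hausdorff space. -/
def IsContinuum (X : Type) [TopologicalSpace X] : Prop :=
  Nonempty X ∧ CompactSpace X ∧ ConnectedSpace X ∧ T2Space X

/-- A subcontinuum: a subset that is a continuum in the subspace topology. -/
def IsSubcontinuum {S : Type} [TopologicalSpace S] (A : Set S) : Prop :=
  IsContinuum A

/-- `X` is not the union of two proper subcontinua. -/
def IsIndecomposable (X : Type) [TopologicalSpace X] : Prop :=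
  ¬ ∃ A B : Set X, IsSubcontinuum A ∧ IsSubcontinuum B ∧ A ≠ univ ∧ B ≠ univ ∧ A ∪ B = univ

/-- The set function `T`. -/
def setT {S : Type} [TopologicalSpace S] (A : Set S) : Set S :=
  univ \ {p | ∃ K : Set S, IsSubcontinuum K ∧ p ∈ interior K ∧ K ∩ A = ∅}

lemma of_sub {S : Type} [TopologicalSpace S] [T2Space S] {A : Set S}
    (h : Pool.Agent.N936.TC.IsSubcontinuum A) : IsSubcontinuum A :=
  ⟨h.2.nonempty.to_subtype, isCompact_iff_compactSpace.1 h.1, isConnected_iff_connectedSpace.1 h.2,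
    inferInstance⟩

lemma to_sub {S : Type} [TopologicalSpace S] {A : Set S}
    (h : IsSubcontinuum A) : Pool.Agent.N936.TC.IsSubcontinuum A :=
  ⟨isCompact_iff_compactSpace.2 h.2.1, isConnected_iff_connectedSpace.2 h.2.2.1⟩

theorem core (hENUM : Pool.Agent.N936.TC.S_ENUM) (hHOMEO : Pool.Agent.N936.TC.S_HOMEO)
    (hTRANS : Pool.Agent.N936.TC.S_TRANS) (hCUTS : Pool.Agent.N936.TC.S_CUTS)
    (hMODEL : Pool.Agent.N936.TC.S_MODEL) (hMET : Pool.Agent.N936.TC.S_MET)
    (hCONN : Pool.Agent.N936.TC.S_CONN) (hIND : Pool.Agent.N936.TC.S_IND)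
    (hWCONN : Pool.Agent.N936.TC.S_WCONN) (hKCONN : Pool.Agent.N936.TC.S_KCONN)
    (hDISJ : Pool.Agent.N936.TC.S_DISJ) (hINT : Pool.Agent.N936.TC.S_INT)
    (hCPT : Pool.Agent.N936.TC.S_CPT) :
    ∃ (X : Type) (_ : TopologicalSpace X), IsContinuum X ∧ TopologicalSpace.MetrizableSpace X ∧
      IsIndecomposable X ∧ ∃ W K : Set (X × X), IsSubcontinuum W ∧ IsSubcontinuum K ∧
        (interior W).Nonempty ∧ (interior K).Nonempty ∧ W ∩ K = ∅ ∧
        setT W ≠ univ ∧ setT K ≠ univ := by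
  obtain ⟨X, tX, h1, h2, h3, h4, h5, W, K, hW, hK, hWi, hKi, hd⟩ :=
    Pool.Agent.N936.TC.main hENUM hHOMEO hTRANS hCUTS hMODEL hMET hCONN hIND hWCONN hKCONN
      hDISJ hINT hCPT
  have hWK : W ∩ K = ∅ := disjoint_iff_inter_eq_empty.1 hd
  refine ⟨X, tX, ⟨inferInstance, h1, h4, h2⟩, h3, ?_, W, K, of_sub hW, of_sub hK, hWi, hKi,
    hWK, ?_, ?_⟩
  · rintro ⟨A, B, hA, hB, hA', hB', hAB⟩
    rcases h5 A B (to_sub hA) (to_sub hB) hAB with h | h
    · exact hA' h
    · exact hB' h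
  · intro h
    obtain ⟨p, hp⟩ := hKi
    have : p ∈ setT W := h ▸ mem_univ p
    exact this.2 ⟨K, of_sub hK, hp, by rw [inter_comm]; exact hWK⟩
  · intro h
    obtain ⟨p, hp⟩ := hWi
    have : p ∈ setT K := h ▸ mem_univ p
    exact this.2 ⟨W, of_sub hW, hp, hWK⟩

/-- There are a metrizable indecomposable continuum `X` and two disjoint subcontinua `W`, `K` of
`X × X`, both with nonempty interior; so `T(W) ≠ X × X`: the answer to Q1 is negative. -/
theorem result :
    ∃ (X : Type) (_ : TopologicalSpace X), IsContinuum X ∧ TopologicalSpace.MetrizableSpace X ∧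
      IsIndecomposable X ∧ ∃ W K : Set (X × X), IsSubcontinuum W ∧ IsSubcontinuum K ∧
        (interior W).Nonempty ∧ (interior K).Nonempty ∧ W ∩ K = ∅ ∧
        setT W ≠ univ ∧ setT K ≠ univ :=
  core Pool.Agent.N91.TC.t_ENUM Pool.Agent.N519.TC.HOMEO.t_homeo Pool.Agent.N1.TC.t_trans
    Pool.Agent.N227.TC.t_CUTS Pool.Agent.N936.TC.MO.t_model Pool.Agent.N327.TC.t_met
    Pool.Agent.N79.TC.t_CONN Pool.Agent.N935.TC.t_IND Pool.Agent.N383.TC.t_wconn
    (Pool.Agent.N952.TC.t_kconn Pool.Agent.N383.TC.t_wconn) Pool.Agent.N28.TC.t_DISJ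
    Pool.Agent.N680.TC.t_INT Pool.Agent.N278.TC.t_cpt

end Pool.Agent.Results.MP_cdfe0d_gt.DisjointSubcontinua
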